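import Mathlib

/-!
# MP_154e02_al: H-selfadjoint square roots of `X^[*] X` with prescribed kernel

For every nonsingular Hermitian `H` that is indefinite (over `ℝ` or `ℂ`, any size) there are
matrices `X, Y` with `Y² = X^[*] X` and `ker Y = ker X`, but such that no `H`-selfadjoint `A`
satisfies `A² = X^[*] X` and `ker A = ker X`.
-/

namespace Pool.Agent.Results.MP_154e02_al.IndefiniteFails

open Matrix
open scoped ComplexOrder

variable {𝕜 : Type*} [RCLike 𝕜] {n : Type*} [Fintype n] [DecidableEq n]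

/-- The `H`-adjoint `X^[*] = H⁻¹ X^* H` of a square matrix `X`. -/
noncomputable def hAdj (H X : Matrix n n 𝕜) : Matrix n n 𝕜 := H⁻¹ * Xᴴ * H

/-- `H` is indefinite: the form `x ↦ x^* H x` takes a positive and a negative value. -/
def Indefinite (H : Matrix n n 𝕜) : Prop :=
  (∃ x : n → 𝕜, 0 < RCLike.re (star x ⬝ᵥ (H *ᵥ x))) ∧
    ∃ y : n → 𝕜, RCLike.re (star y ⬝ᵥ (H *ᵥ y)) < 0

/-- The two matrices have the same kernel. -/
def SameKer (X Y : Matrix n n 𝕜) : Prop := ∀ u : n → 𝕜, X *ᵥ u = 0 ↔ Y *ᵥ u = 0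

omit [DecidableEq n] in
lemma herm_swap {H : Matrix n n 𝕜} (hH : H.IsHermitian) (x y : n → 𝕜) :
    star (star y ⬝ᵥ (H *ᵥ x)) = star x ⬝ᵥ (H *ᵥ y) := by
  rw [Matrix.star_dotProduct, star_star, Matrix.star_mulVec, hH.eq, ← Matrix.dotProduct_mulVec]

omit [DecidableEq n] in
lemma herm_self_real {H : Matrix n n 𝕜} (hH : H.IsHermitian) (x : n → 𝕜) :
    star x ⬝ᵥ (H *ᵥ x) = ((RCLike.re (star x ⬝ᵥ (H *ᵥ x)) : ℝ) : 𝕜) := by
  have h := herm_swap hH x x
  exact ((RCLike.conj_eq_iff_re (K := 𝕜)).1 h).symm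

theorem counterexample (H : Matrix n n 𝕜) (hH : H.IsHermitian) (hdet : IsUnit H.det)
    (hind : Indefinite H) :
    ∃ X Y : Matrix n n 𝕜, Y * Y = hAdj H X * X ∧ SameKer Y X ∧
      ¬ ∃ A : Matrix n n 𝕜, hAdj H A = A ∧ A * A = hAdj H X * X ∧ SameKer A X := by
  obtain ⟨⟨x, hx⟩, ⟨y, hy⟩⟩ := hind
  set q : (n → 𝕜) → ℝ := fun z => RCLike.re (star z ⬝ᵥ (H *ᵥ z)) with hq
  -- quadratic expansion
  have hexp : ∀ t : ℝ, q (x + (t : 𝕜) • y) =
      q y * t ^ 2 + 2 * RCLike.re (star y ⬝ᵥ (H *ᵥ x)) * t + q x := by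
    intro t
    have h1 : star (x + (t : 𝕜) • y) = star x + (t : 𝕜) • star y := by
      ext i; simp
    have h2 : RCLike.re (star x ⬝ᵥ (H *ᵥ y)) = RCLike.re (star y ⬝ᵥ (H *ᵥ x)) := by
      rw [← herm_swap hH x y]; simp
    simp only [hq, h1, Matrix.mulVec_add, Matrix.mulVec_smul, add_dotProduct, dotProduct_add,
      smul_dotProduct, dotProduct_smul, smul_eq_mul, map_add, RCLike.re_ofReal_mul, h2]
    ring
  -- an isotropic vector
  obtain ⟨t, ht⟩ : ∃ t : ℝ, q (x + (t : 𝕜) • y) = 0 := by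
    set b := RCLike.re (star y ⬝ᵥ (H *ᵥ x)) with hb
    have hy' : q y < 0 := hy
    have hx' : 0 < q x := hx
    have hdisc : 0 ≤ b ^ 2 - q y * q x := by nlinarith [sq_nonneg b, mul_neg_of_neg_of_pos hy' hx']
    refine ⟨(-b + Real.sqrt (b ^ 2 - q y * q x)) / q y, ?_⟩
    rw [hexp]
    have hne : q y ≠ 0 := ne_of_lt hy'
    field_simp
    nlinarith [Real.sq_sqrt hdisc]
  set e := x + (t : 𝕜) • y with he
  have he0 : e ≠ 0 := by
    intro h0
    have hxy : x = (-(t : ℝ) : 𝕜) • y := by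
      have : x + (t : 𝕜) • y = 0 := h0
      rw [neg_smul]; exact eq_neg_of_add_eq_zero_left this
    have : q x = t ^ 2 * q y := by
      have h1 : star ((-(t : ℝ) : 𝕜) • y) = (-(t : ℝ) : 𝕜) • star y := by
        ext i; simp [RCLike.real_smul_eq_coe_mul]
      simp only [hq]
      rw [hxy, h1, Matrix.mulVec_smul, smul_dotProduct, dotProduct_smul]
      simp only [smul_eq_mul, neg_mul, mul_neg, neg_neg, RCLike.re_ofReal_mul]
      ring
    have hx' : 0 < q x := hx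
    have hy' : q y < 0 := hy
    nlinarith [sq_nonneg t, mul_nonneg (sq_nonneg t) (neg_nonneg.2 hy'.le)]
  have hee : star e ⬝ᵥ (H *ᵥ e) = 0 := by
    rw [herm_self_real hH e]
    have : RCLike.re (star e ⬝ᵥ (H *ᵥ e)) = 0 := ht
    rw [this]; simp
  -- the functional `w = [·, x]`
  set w : n → 𝕜 := star x ᵥ* H with hw
  have hwu : ∀ u, w ⬝ᵥ u = star x ⬝ᵥ (H *ᵥ u) := fun u => (Matrix.dotProduct_mulVec _ _ _).symm
  have hwx : w ⬝ᵥ x ≠ 0 := by
    rw [hwu]
    intro h0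
    rw [h0] at hx
    simp at hx
  -- a nonzero vector orthogonal to `x`
  set f : n → 𝕜 := y - ((w ⬝ᵥ y) / (w ⬝ᵥ x)) • x with hf
  have hwf : w ⬝ᵥ f = 0 := by
    rw [hf, dotProduct_sub, dotProduct_smul, smul_eq_mul, div_mul_cancel₀ _ hwx, sub_self]
  have hf0 : f ≠ 0 := by
    intro h0
    set c := (w ⬝ᵥ y) / (w ⬝ᵥ x) with hc
    have hyx : y = c • x := sub_eq_zero.1 h0
    have h1 : star y ⬝ᵥ (H *ᵥ y) = ((‖c‖ ^ 2 : ℝ) : 𝕜) * (star x ⬝ᵥ (H *ᵥ x)) := by
      rw [hyx, Matrix.mulVec_smul, dotProduct_smul]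
      have h2 : star (c • x) = star c • star x := by
        ext i; simp
      rw [h2, smul_dotProduct, smul_eq_mul, smul_eq_mul, ← mul_assoc]
      congr 1
      rw [RCLike.star_def, RCLike.mul_conj]
      push_cast
      rfl
    have h3 : q y = ‖c‖ ^ 2 * q x := by
      simp only [hq]
      rw [h1, RCLike.re_ofReal_mul]
    have hx' : 0 < q x := hx
    have hy' : q y < 0 := hy
    nlinarith [mul_nonneg (sq_nonneg ‖c‖) hx'.le]
  have hHinv : H * H⁻¹ = 1 := Matrix.mul_nonsing_inv _ hdet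
  -- kernels
  have hkX : ∀ u, (vecMulVec e w) *ᵥ u = 0 ↔ w ⬝ᵥ u = 0 := by
    intro u
    rw [Matrix.vecMulVec_mulVec]
    constructor
    · intro h
      by_contra hne
      apply he0
      have : (w ⬝ᵥ u) • e = 0 := by
        simpa using h
      exact (smul_eq_zero.1 this).resolve_left hne
    · intro h; simp [h]
  have hkY : ∀ u, (vecMulVec f w) *ᵥ u = 0 ↔ w ⬝ᵥ u = 0 := by
    intro u
    rw [Matrix.vecMulVec_mulVec]
    constructor
    · intro h
      by_contra hne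
      apply hf0
      have : (w ⬝ᵥ u) • f = 0 := by
        simpa using h
      exact (smul_eq_zero.1 this).resolve_left hne
    · intro h; simp [h]
  have hXX : hAdj H (vecMulVec e w) * vecMulVec e w = 0 := by
    have h1 : (vecMulVec e w)ᴴ * H * vecMulVec e w = 0 := by
      rw [Matrix.conjTranspose_vecMulVec, Matrix.vecMulVec_mul, Matrix.vecMulVec_mul_vecMulVec]
      rw [← Matrix.dotProduct_mulVec, hee]
      simp
    unfold hAdj
    calc H⁻¹ * (vecMulVec e w)ᴴ * H * vecMulVec e w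
        = H⁻¹ * ((vecMulVec e w)ᴴ * H * vecMulVec e w) := by simp only [Matrix.mul_assoc]
      _ = 0 := by rw [h1, Matrix.mul_zero]
  refine ⟨vecMulVec e w, vecMulVec f w, ?_, ?_, ?_⟩
  · rw [hXX, Matrix.vecMulVec_mul_vecMulVec, hwf]
    simp
  · intro u; rw [hkX, hkY]
  · rintro ⟨A, hA, hAA, hker⟩
    rw [hXX] at hAA
    have hk : ∀ u, A *ᵥ u = 0 ↔ w ⬝ᵥ u = 0 := fun u => (hker u).trans (hkX u)
    have hsa : Aᴴ * H = H * A := by
      have h1 : H * (H⁻¹ * Aᴴ * H) = Aᴴ * H := by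
        rw [← Matrix.mul_assoc, ← Matrix.mul_assoc, hHinv, Matrix.one_mul]
      unfold hAdj at hA
      rw [hA] at h1
      exact h1.symm
    have hAx : A *ᵥ x ≠ 0 := fun h => hwx ((hk x).1 h)
    have hdec : ∀ z : n → 𝕜, w ⬝ᵥ (z - ((w ⬝ᵥ z) / (w ⬝ᵥ x)) • x) = 0 := by
      intro z
      rw [dotProduct_sub, dotProduct_smul, smul_eq_mul, div_mul_cancel₀ _ hwx, sub_self]
    -- `[A x, x] = 0`
    have hc0 : w ⬝ᵥ (A *ᵥ x) = 0 := by
      have h1 := (hk _).2 (hdec (A *ᵥ x))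
      rw [Matrix.mulVec_sub, Matrix.mulVec_smul, Matrix.mulVec_mulVec, hAA,
        Matrix.zero_mulVec, zero_sub, neg_eq_zero] at h1
      have h2 := (smul_eq_zero.1 h1).resolve_right hAx
      rcases div_eq_zero_iff.1 h2 with h | h
      · exact h
      · exact absurd h hwx
    have horth : ∀ z : n → 𝕜, star z ⬝ᵥ (H *ᵥ (A *ᵥ x)) = 0 := by
      intro z
      set a := (w ⬝ᵥ z) / (w ⬝ᵥ x) with ha
      set u := z - a • x with hu
      have hzu : z = a • x + u := by rw [hu]; abel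
      have hAu : A *ᵥ u = 0 := (hk u).2 (hdec z)
      have h1 : star u ⬝ᵥ (H *ᵥ (A *ᵥ x)) = 0 := by
        rw [Matrix.mulVec_mulVec, ← hsa, ← Matrix.mulVec_mulVec, Matrix.dotProduct_mulVec,
          ← Matrix.star_mulVec, hAu]
        simp
      have h2 : star z = star a • star x + star u := by
        rw [hzu]; ext i; simp
      rw [h2, add_dotProduct, smul_dotProduct, h1, ← hwu, hc0]
      simp
    have hHA : H *ᵥ (A *ᵥ x) = 0 := by
      have := horth (H *ᵥ (A *ᵥ x))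
      exact dotProduct_star_self_eq_zero.1 this
    apply hAx
    have : H⁻¹ *ᵥ (H *ᵥ (A *ᵥ x)) = A *ᵥ x := by
      rw [Matrix.mulVec_mulVec, Matrix.nonsing_inv_mul _ hdet, Matrix.one_mulVec]
    rw [← this, hHA, Matrix.mulVec_zero]

lemma exists_indefinite (𝕜 : Type*) [RCLike 𝕜] (n : ℕ) (hn : 2 ≤ n) :
    ∃ H : Matrix (Fin n) (Fin n) 𝕜, H.IsHermitian ∧ IsUnit H.det ∧ Indefinite H := by
  obtain ⟨m, rfl⟩ : ∃ m, n = m + 2 := ⟨n - 2, by omega⟩
  refine ⟨Matrix.diagonal (fun i => if i = 0 then -1 else 1), ?_, ?_, ?_, ?_⟩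
  · apply Matrix.isHermitian_diagonal_of_self_adjoint
    rw [IsSelfAdjoint]
    ext i
    by_cases h : i = 0 <;> simp [h]
  · rw [Matrix.det_diagonal, isUnit_iff_ne_zero, Finset.prod_ne_zero_iff]
    intro i _
    by_cases h : i = 0 <;> simp [h]
  · refine ⟨Pi.single 1 1, ?_⟩
    have h1 : star (Pi.single 1 1 : Fin (m + 2) → 𝕜) = Pi.single 1 1 := by
      ext i
      rcases eq_or_ne i 1 with h | h
      · subst h; simp
      · simp [Pi.single_eq_of_ne h]
    have h10 : (1 : Fin (m + 2)) ≠ 0 := by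
      intro h; simpa using congrArg Fin.val h
    rw [h1, single_dotProduct, Matrix.mulVec_diagonal]
    simp [h10]
  · refine ⟨Pi.single 0 1, ?_⟩
    have h1 : star (Pi.single 0 1 : Fin (m + 2) → 𝕜) = Pi.single 0 1 := by
      ext i
      rcases eq_or_ne i 0 with h | h
      · subst h; simp
      · simp [Pi.single_eq_of_ne h]
    rw [h1, single_dotProduct, Matrix.mulVec_diagonal]
    simp

/-- **Main result.** Over `𝕜 = ℝ` or `ℂ`, and for every size `n`: for *every* nonsingular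
Hermitian matrix `H` that is indefinite there are `X, Y` with `Y² = X^[*] X` and
`ker Y = ker X`, while no `H`-selfadjoint `A` has `A² = X^[*] X` and `ker A = ker X`.
Such matrices `H` exist for every `n ≥ 2`. -/
theorem result (𝕜 : Type*) [RCLike 𝕜] (n : ℕ) :
    (∀ H : Matrix (Fin n) (Fin n) 𝕜, H.IsHermitian → IsUnit H.det → Indefinite H →
      ∃ X Y : Matrix (Fin n) (Fin n) 𝕜, Y * Y = hAdj H X * X ∧ SameKer Y X ∧
        ¬ ∃ A : Matrix (Fin n) (Fin n) 𝕜,
          hAdj H A = A ∧ A * A = hAdj H X * X ∧ SameKer A X) ∧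
    (2 ≤ n → ∃ H : Matrix (Fin n) (Fin n) 𝕜, H.IsHermitian ∧ IsUnit H.det ∧ Indefinite H) :=
  ⟨fun H hH hdet hind => counterexample H hH hdet hind, exists_indefinite 𝕜 n⟩

end Pool.Agent.Results.MP_154e02_al.IndefiniteFails
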